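import Pool.Agent.Helper77.SND.Stmts

/-! MP_7ef5a1_co, module HYP: sparse hypergraphs that are not 2-colourable. -/

set_option autoImplicit false

namespace Pool.Agent.Helper77.SND

theorem hyp_zero (h : HYP 1) : HYP 0 := by
  intro K _
  obtain ⟨E, L, hE, hL, lam, h1, h2, h3⟩ := h K
  exact ⟨E, L, hE, hL, lam, h1, fun F hF hc => h2 F hF (hc.trans (Nat.zero_le _)), h3⟩

theorem hyp_sys (hHS : ST_HS) (K : Type) [Finite K] (r a : ℕ) (hr : 1 ≤ r) (h : HYP r)
    (h0 : Sys K (r + 1) a 0) : ∀ i, Sys K (r + 1) a i := by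
  intro i
  induction i with
  | zero => exact h0
  | succ i ih => exact hHS K r a i hr h ih

theorem hyp_step (hH0 : ST_H0) (hHS : ST_HS) (r : ℕ) (hr : 1 ≤ r) (h : HYP r) :
    HYP (r + 1) := by
  intro K _
  obtain ⟨a, h0⟩ := hH0 K (r + 1)
  obtain ⟨E, L, hE, hL, lam, π, h1, h2, h3, h4⟩ := hyp_sys hHS K r a hr h h0 a
  refine ⟨E, L, hE, hL, lam, ?_, h3, ?_⟩
  · intro α k k' hk
    exact h2 α (congrArg π hk)
  · intro χ
    exact h4 χ fun l l' _ hl => absurd (h1 l) (not_lt.2 hl)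

theorem st_HYP (hHB : ST_HB) (hH0 : ST_H0) (hHS : ST_HS) : ST_HYP := by
  have key : ∀ r : ℕ, HYP (r + 1) := by
    intro r
    induction r with
    | zero => exact hHB
    | succ r ih => exact hyp_step hH0 hHS (r + 1) (Nat.le_add_left 1 r) ih
  intro r
  cases r with
  | zero => exact hyp_zero hHB
  | succ r => exact key r

end Pool.Agent.Helper77.SND
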